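import Mathlib

/-!
A finitely generated group `G` (the direct product of `k` free groups of rank two) and a finitely
generated normal subgroup `H` (the kernel of the total exponent sum) such that `(G, H)` is coset
automatic but not strongly coset automatic.
-/

namespace Pool.Agent.Results.MP_6b1724_al.CosetAutomaticNotStrong

section Definitions

variable {G : Type*} [Group G]

/-- The alphabet `A = X ∪ X⁻¹`. -/
abbrev Alphabet (X : Finset G) : Type _ := {a : G // a ∈ X ∨ a⁻¹ ∈ X}

/-- The element of `G` represented by a word over `A = X ∪ X⁻¹`. -/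
def ev {X : Finset G} (w : List (Alphabet X)) : G := (w.map Subtype.val).prod

/-- The element of `G` represented by an element of `A ∪ {ε}` (`none` stands for `ε`). -/
def evLetter {X : Finset G} (a : Option (Alphabet X)) : G := a.elim 1 Subtype.val

/-- The right coset `H g`. -/
def rcoset (H : Subgroup G) (g : G) : Set G := {x | ∃ h ∈ H, x = h * g}

/-- The word read by a two-variable automaton on input `(v, w)`: the two words are read
synchronously, the shorter one being padded at its end by the padding symbol `none`. Its length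
is the maximum of the two lengths, and its letter number `i` is the pair of the letters number
`i` of `v` and of `w`, `none` standing for a missing letter. -/
def padPair {α : Type*} (v w : List α) : List (Option α × Option α) :=
  (List.range (max v.length w.length)).map (fun i => (v[i]?, w[i]?))

/-- The path metric of the Cayley graph of `G` with respect to `X`: the least length of a
word `w` over `A` labelling a path from `g` to `g'`. -/
noncomputable def cayleyDist (X : Finset G) (g g' : G) : ℕ :=
  sInf {n | ∃ w : List (Alphabet X), w.length = n ∧ g * ev w = g'}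

/-- There is an automatic coset system for `H` in `G` with respect to `X`: a regular language
`L` over `A` and regular languages `M a` of padded pairs, one for each `a ∈ A ∪ {ε}`. -/
def HasAutomaticCosetSystem (X : Finset G) (H : Subgroup G) : Prop :=
  ∃ (L : Language (Alphabet X))
    (M : Option (Alphabet X) → Language (Option (Alphabet X) × Option (Alphabet X))),
    L.IsRegular ∧ (∀ a, (M a).IsRegular) ∧
    (∀ g : G, ∃ w ∈ L, rcoset H (ev w) = rcoset H g) ∧
    ∀ (a : Option (Alphabet X)) (v w : List (Alphabet X)),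
      padPair v w ∈ M a ↔
        (v ∈ L ∧ w ∈ L ∧ rcoset H (ev v * evLetter a) = rcoset H (ev w))

/-- There is a strong automatic coset system for `H` in `G` with respect to `X`. -/
def HasStrongAutomaticCosetSystem (X : Finset G) (H : Subgroup G) : Prop :=
  ∃ (L : Language (Alphabet X)) (K : ℕ),
    L.IsRegular ∧
    (∀ g : G, ∃ w ∈ L, rcoset H (ev w) = rcoset H g) ∧
    ∀ v ∈ L, ∀ w ∈ L, ∀ h ∈ H, cayleyDist X (ev v) (h * ev w) ≤ 1 →
      ∀ i : ℕ, cayleyDist X (ev (v.take i)) (h * ev (w.take i)) ≤ K

/-- `(G, H)` is coset automatic: for some finite generating set `X` of `G` there is an automatic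
coset system for `H` in `G` with respect to `X`. -/
def IsCosetAutomatic (H : Subgroup G) : Prop :=
  ∃ X : Finset G, Subgroup.closure (X : Set G) = ⊤ ∧ HasAutomaticCosetSystem X H

/-- `(G, H)` is strongly coset automatic: for some finite generating set `X` of `G` there is a
strong automatic coset system for `H` in `G` with respect to `X`. -/
def IsStronglyCosetAutomatic (H : Subgroup G) : Prop :=
  ∃ X : Finset G, Subgroup.closure (X : Set G) = ⊤ ∧ HasStrongAutomaticCosetSystem X H

end Definitions

/-! ### General facts about strong automatic coset systems -/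

section General

variable {G : Type*} [Group G]

theorem ev_nil {X : Finset G} : ev ([] : List (Alphabet X)) = 1 := rfl

theorem ev_cons {X : Finset G} (a : Alphabet X) (w : List (Alphabet X)) :
    ev (a :: w) = a.val * ev w := by
  simp [ev]

theorem ev_append {X : Finset G} (v w : List (Alphabet X)) : ev (v ++ w) = ev v * ev w := by
  simp [ev]

theorem rcoset_eq_iff (H : Subgroup G) (g g' : G) :
    rcoset H g = rcoset H g' ↔ g * g'⁻¹ ∈ H := by
  constructor
  · intro h
    have h1 : g ∈ rcoset H g := ⟨1, H.one_mem, by simp⟩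
    rw [h] at h1
    obtain ⟨k, hk, hk'⟩ := h1
    rw [hk']
    simpa using hk
  · intro h
    ext x
    constructor
    · rintro ⟨k, hk, rfl⟩
      exact ⟨k * (g * g'⁻¹), H.mul_mem hk h, by group⟩
    · rintro ⟨k, hk, rfl⟩
      exact ⟨k * (g * g'⁻¹)⁻¹, H.mul_mem hk (H.inv_mem h), by group⟩

/-- The inverse letter. -/
def invLetter {X : Finset G} (a : Alphabet X) : Alphabet X :=
  ⟨a.val⁻¹, by
    rcases a.property with h | h
    · right; simpa using h
    · left; exact h⟩

theorem ev_inv {X : Finset G} (v : List (Alphabet X)) :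
    ev (v.map invLetter).reverse = (ev v)⁻¹ := by
  induction v with
  | nil => simp [ev]
  | cons a v ih =>
    rw [List.map_cons, List.reverse_cons, ev_append, ih, ev_cons, ev_cons, ev_nil]
    simp [invLetter]

theorem exists_word {X : Finset G} (hX : Subgroup.closure (X : Set G) = ⊤) (g : G) :
    ∃ w : List (Alphabet X), ev w = g := by
  have hg : g ∈ Subgroup.closure (X : Set G) := by rw [hX]; trivial
  induction hg using Subgroup.closure_induction with
  | mem x hx => exact ⟨[⟨x, Or.inl hx⟩], by simp [ev]⟩
  | one => exact ⟨[], rfl⟩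
  | mul x y _ _ hx hy =>
    obtain ⟨v, rfl⟩ := hx
    obtain ⟨w, rfl⟩ := hy
    exact ⟨v ++ w, ev_append v w⟩
  | inv x _ hx =>
    obtain ⟨v, rfl⟩ := hx
    exact ⟨(v.map invLetter).reverse, ev_inv v⟩

/-- In a generating set, `cayleyDist` is realized by a word. -/
theorem exists_word_length {X : Finset G} (hX : Subgroup.closure (X : Set G) = ⊤) (g g' : G)
    (n : ℕ) (h : cayleyDist X g g' ≤ n) :
    ∃ w : List (Alphabet X), w.length ≤ n ∧ g * ev w = g' := by
  have hne : {n | ∃ w : List (Alphabet X), w.length = n ∧ g * ev w = g'}.Nonempty := by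
    obtain ⟨w, hw⟩ := exists_word hX (g⁻¹ * g')
    exact ⟨w.length, w, rfl, by rw [hw]; group⟩
  obtain ⟨w, hw, hw'⟩ := Nat.sInf_mem hne
  exact ⟨w, by rw [hw]; exact h, hw'⟩

theorem cayleyDist_le {X : Finset G} (g g' : G) (w : List (Alphabet X)) (h : g * ev w = g') :
    cayleyDist X g g' ≤ w.length :=
  Nat.sInf_le ⟨w, rfl, h⟩

/-- The key estimate: in a strong automatic coset system, the elements `h ∈ H` joining two
words of `L` are not longer than a constant times the distance. -/
theorem strong_bound {X : Finset G} (hX : Subgroup.closure (X : Set G) = ⊤) (H : Subgroup G)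
    (L : Language (Alphabet X)) (K : ℕ)
    (h1 : ∀ g : G, ∃ w ∈ L, rcoset H (ev w) = rcoset H g)
    (h2 : ∀ v ∈ L, ∀ w ∈ L, ∀ h ∈ H, cayleyDist X (ev v) (h * ev w) ≤ 1 →
      ∀ i : ℕ, cayleyDist X (ev (v.take i)) (h * ev (w.take i)) ≤ K)
    (w : List (Alphabet X)) (hw : w ∈ L) (u : List (Alphabet X)) :
    ∀ v ∈ L, ∀ h ∈ H, ev v * ev u = h * ev w →
      ∃ p : List (Alphabet X), p.length ≤ K * (u.length + 1) ∧ ev p = h := by
  have h3 : ∀ v ∈ L, ∀ w ∈ L, ∀ h ∈ H, cayleyDist X (ev v) (h * ev w) ≤ 1 →
      ∃ p : List (Alphabet X), p.length ≤ K ∧ ev p = h := by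
    intro v hv w hw h hh hd
    have := h2 v hv w hw h hh hd 0
    rw [List.take_zero, List.take_zero, ev_nil, mul_one] at this
    obtain ⟨p, hp, hp'⟩ := exists_word_length hX _ _ _ this
    exact ⟨p, hp, by rw [one_mul] at hp'; exact hp'⟩
  induction u with
  | nil =>
    intro v hv h hh hvw
    rw [ev_nil, mul_one] at hvw
    obtain ⟨p, hp, hp'⟩ := h3 v hv w hw h hh
      (le_trans (cayleyDist_le _ _ [] (by rw [ev_nil, mul_one]; exact hvw)) (by simp))
    exact ⟨p, by simpa using hp, hp'⟩
  | cons x u ih =>
    intro v hv h hh hvw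
    obtain ⟨v1, hv1, hv1'⟩ := h1 (ev v * x.val)
    rw [rcoset_eq_iff] at hv1'
    have hk : (ev v1 * (ev v * x.val)⁻¹)⁻¹ ∈ H := H.inv_mem hv1'
    set k := (ev v1 * (ev v * x.val)⁻¹)⁻¹ with hkdef
    have hk1 : ev v * x.val = k * ev v1 := by rw [hkdef]; group
    obtain ⟨p, hp, hp'⟩ := h3 v hv v1 hv1 k hk
      (cayleyDist_le _ _ [x] (by rw [ev_cons, ev_nil, mul_one]; exact hk1))
    obtain ⟨q, hq, hq'⟩ := ih v1 hv1 (k⁻¹ * h) (H.mul_mem (H.inv_mem hk) hh) (by
      rw [mul_assoc, ← hvw, ev_cons, ← mul_assoc (ev v), hk1]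
      group)
    refine ⟨p ++ q, ?_, ?_⟩
    · rw [List.length_append, List.length_cons]
      calc p.length + q.length ≤ K + K * (u.length + 1) := add_le_add hp hq
        _ = K * (u.length + 1 + 1) := by ring
    · rw [ev_append, hp', hq']
      group

/-- A general obstruction: if `(G, H)` is strongly coset automatic then there are
representatives `r g ∈ G` of the right cosets `H g` such that, for each `y ∈ G`, only finitely
many elements of `H` are of the form `r g * y * (r g)⁻¹`. -/
theorem strong_obstruction (H : Subgroup G) (hs : IsStronglyCosetAutomatic H) :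
    ∃ r : G → G, (∀ g, r g * g⁻¹ ∈ H) ∧
      ∀ y : G, {h | h ∈ H ∧ ∃ g, h = r g * y * (r g)⁻¹}.Finite := by
  obtain ⟨X, hX, L, K, _, h1, h2⟩ := hs
  choose r hr hr' using id h1
  refine ⟨fun g => ev (r g), fun g => (rcoset_eq_iff _ _ _).1 (hr' g), ?_⟩
  intro y
  obtain ⟨u, hu⟩ := exists_word hX y
  have hfin : {p : List (Alphabet X) | p.length ≤ K * (u.length + 1)}.Finite := by
    have : Finite (Alphabet X) := by
      have : {a : G | a ∈ X ∨ a⁻¹ ∈ X}.Finite := by
        have h4 : {a : G | a ∈ X ∨ a⁻¹ ∈ X} = (X : Set G) ∪ (X : Set G)⁻¹ := by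
          ext a; simp
        rw [h4]
        exact X.finite_toSet.union X.finite_toSet.inv
      exact this.to_subtype
    exact List.finite_length_le _ _
  refine (hfin.image ev).subset ?_
  rintro h ⟨hh, g, rfl⟩
  obtain ⟨p, hp, hp'⟩ := strong_bound hX H L K h1 h2 (r g) (hr g) u (r g) (hr g) _ hh
    (by rw [hu]; group)
  exact ⟨p, hp, hp'⟩

end General

/-! ### Regularity of the language of pairs with a bounded difference -/

section Regular

variable {A Q : Type*} [Group Q]

/-- Value of a padded letter. -/
def valO (f : A → Q) : Option A → Q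
  | none => 1
  | some a => f a

/-- Action of a padded letter on the states of a DFA. -/
def stepO {σ : Type*} (M : DFA A σ) (q : σ) : Option A → σ
  | none => q
  | some a => M.step q a

open Classical in
/-- Update of the difference. -/
noncomputable def stepD (f : A → Q) (B : Set Q) (D : Option B) (x : Option A × Option A) :
    Option B :=
  D.bind fun g => if h : (valO f x.1)⁻¹ * g.val * valO f x.2 ∈ B then some ⟨_, h⟩ else none

/-- The standard two-variable automaton. -/
noncomputable def stdDFA {σ : Type*} (M : DFA A σ) (f : A → Q) (B : Set Q) (h1 : (1 : Q) ∈ B)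
    (x : Q) : DFA (Option A × Option A) (σ × σ × Option B) where
  step q y := (stepO M q.1 y.1, stepO M q.2.1 y.2, stepD f B q.2.2 y)
  start := (M.start, M.start, some ⟨1, h1⟩)
  accept := {q | q.1 ∈ M.accept ∧ q.2.1 ∈ M.accept ∧ ∃ g, q.2.2 = some g ∧ g.val = x}

variable {σ : Type*} (M : DFA A σ) (f : A → Q) (B : Set Q) (h1 : (1 : Q) ∈ B) (x : Q)

theorem padPair_nil_nil : padPair ([] : List A) [] = [] := by simp [padPair]

theorem padPair_cons_nil (a : A) (v : List A) :
    padPair (a :: v) [] = (some a, none) :: padPair v [] := by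
  simp [padPair, List.range_succ_eq_map]

theorem padPair_nil_cons (b : A) (w : List A) :
    padPair [] (b :: w) = (none, some b) :: padPair [] w := by
  simp [padPair, List.range_succ_eq_map]

theorem padPair_cons_cons (a : A) (v : List A) (b : A) (w : List A) :
    padPair (a :: v) (b :: w) = (some a, some b) :: padPair v w := by
  simp [padPair, List.range_succ_eq_map]

/-- Induction on a pair of words. -/
theorem pair_induction {motive : List A → List A → Prop} (case1 : motive [] [])
    (case2 : ∀ a v, motive v [] → motive (a :: v) [])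
    (case3 : ∀ b w, motive [] w → motive [] (b :: w))
    (case4 : ∀ a v b w, motive v w → motive (a :: v) (b :: w)) (v w : List A) :
    motive v w := by
  induction v generalizing w with
  | nil =>
    induction w with
    | nil => exact case1
    | cons b w ih => exact case3 b w ih
  | cons a v ih =>
    cases w with
    | nil => exact case2 a v (ih [])
    | cons b w => exact case4 a v b w (ih w)

theorem stdDFA_step (q : σ × σ × Option B) (y : Option A × Option A) :
    (stdDFA M f B h1 x).step q y = (stepO M q.1 y.1, stepO M q.2.1 y.2, stepD f B q.2.2 y) := rfl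

theorem stdDFA_fst (v w : List A) : ∀ (q : σ × σ × Option B),
    ((stdDFA M f B h1 x).evalFrom q (padPair v w)).1 = M.evalFrom q.1 v ∧
    ((stdDFA M f B h1 x).evalFrom q (padPair v w)).2.1 = M.evalFrom q.2.1 w := by
  induction v, w using pair_induction with
  | case1 =>
    intro q
    rw [padPair_nil_nil, DFA.evalFrom_nil, DFA.evalFrom_nil, DFA.evalFrom_nil]
    exact ⟨rfl, rfl⟩
  | case2 a v ih =>
    intro q
    rw [padPair_cons_nil, DFA.evalFrom_cons, DFA.evalFrom_cons, (ih _).1, (ih _).2]
    exact ⟨rfl, rfl⟩
  | case3 b w ih =>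
    intro q
    rw [padPair_nil_cons, DFA.evalFrom_cons, DFA.evalFrom_cons, (ih _).1, (ih _).2]
    exact ⟨rfl, rfl⟩
  | case4 a v b w ih =>
    intro q
    rw [padPair_cons_cons, DFA.evalFrom_cons, DFA.evalFrom_cons, DFA.evalFrom_cons,
      (ih _).1, (ih _).2]
    exact ⟨rfl, rfl⟩

theorem stdDFA_none (l : List (Option A × Option A)) : ∀ (q : σ × σ × Option B),
    q.2.2 = none → ((stdDFA M f B h1 x).evalFrom q l).2.2 = none := by
  induction l with
  | nil => intro q hq; exact hq
  | cons y l ih =>
    intro q hq
    rw [DFA.evalFrom_cons]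
    apply ih
    rw [stdDFA_step]
    show stepD f B q.2.2 y = none
    rw [hq]
    rfl

theorem stdDFA_step_some (q : σ × σ × Option B) (g : B) (hq : q.2.2 = some g)
    (y : Option A × Option A) (h : (valO f y.1)⁻¹ * g.val * valO f y.2 ∈ B) :
    ((stdDFA M f B h1 x).step q y).2.2 = some ⟨_, h⟩ := by
  show stepD f B q.2.2 y = some ⟨_, h⟩
  rw [hq]
  exact dif_pos h

theorem stdDFA_step_none (q : σ × σ × Option B) (g : B) (hq : q.2.2 = some g)
    (y : Option A × Option A) (h : (valO f y.1)⁻¹ * g.val * valO f y.2 ∉ B) :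
    ((stdDFA M f B h1 x).step q y).2.2 = none := by
  show stepD f B q.2.2 y = none
  rw [hq]
  exact dif_neg h

theorem stdDFA_some (v w : List A) : ∀ (q : σ × σ × Option B) (g g' : B),
    q.2.2 = some g → ((stdDFA M f B h1 x).evalFrom q (padPair v w)).2.2 = some g' →
      g'.val = (v.map f).prod⁻¹ * g.val * (w.map f).prod := by
  have key : ∀ (v w : List A) (y : Option A × Option A) (v' w' : List A),
      padPair v' w' = y :: padPair v w →
      (v'.map f).prod = valO f y.1 * (v.map f).prod →
      (w'.map f).prod = valO f y.2 * (w.map f).prod →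
      (∀ (q : σ × σ × Option B) (g g' : B),
        q.2.2 = some g → ((stdDFA M f B h1 x).evalFrom q (padPair v w)).2.2 = some g' →
        g'.val = (v.map f).prod⁻¹ * g.val * (w.map f).prod) →
      ∀ (q : σ × σ × Option B) (g g' : B),
        q.2.2 = some g → ((stdDFA M f B h1 x).evalFrom q (padPair v' w')).2.2 = some g' →
        g'.val = (v'.map f).prod⁻¹ * g.val * (w'.map f).prod := by
    intro v w y v' w' e1 e2 e3 ih q g g' hq hg
    rw [e1, DFA.evalFrom_cons] at hg
    by_cases h : (valO f y.1)⁻¹ * g.val * valO f y.2 ∈ B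
    · have := ih _ ⟨_, h⟩ g' (stdDFA_step_some M f B h1 x q g hq y h) hg
      rw [this, e2, e3]
      simp [mul_assoc]
    · have := stdDFA_none M f B h1 x (padPair v w) _ (stdDFA_step_none M f B h1 x q g hq y h)
      exact absurd (this.symm.trans hg) (by simp)
  induction v, w using pair_induction with
  | case1 =>
    intro q g g' hq hg
    rw [padPair_nil_nil, DFA.evalFrom_nil] at hg
    have h2 : some g = some g' := hq.symm.trans hg
    rw [Option.some.inj h2]
    simp
  | case2 a v ih =>
    exact key _ _ _ _ _ (padPair_cons_nil a v) (by simp [valO]) (by simp [valO]) ih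
  | case3 b w ih =>
    exact key _ _ _ _ _ (padPair_nil_cons b w) (by simp [valO]) (by simp [valO]) ih
  | case4 a v b w ih =>
    exact key _ _ _ _ _ (padPair_cons_cons a v b w) (by simp [valO]) (by simp [valO]) ih

theorem stdDFA_exists (v w : List A) : ∀ (q : σ × σ × Option B) (g : B), q.2.2 = some g →
    (∀ i, ((v.take i).map f).prod⁻¹ * g.val * ((w.take i).map f).prod ∈ B) →
    ∃ g', ((stdDFA M f B h1 x).evalFrom q (padPair v w)).2.2 = some g' := by
  induction v, w using pair_induction with
  | case1 =>
    intro q g hq _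
    rw [padPair_nil_nil, DFA.evalFrom_nil]
    exact ⟨g, hq⟩
  | case2 a v ih =>
    intro q g hq hi
    have h : (valO f (some a))⁻¹ * g.val * valO f none ∈ B := by
      simpa [valO] using hi 1
    rw [padPair_cons_nil, DFA.evalFrom_cons]
    refine ih _ ⟨_, h⟩ (stdDFA_step_some M f B h1 x q g hq (some a, none) h) ?_
    intro i
    have := hi (i + 1)
    simpa [valO, mul_assoc] using this
  | case3 b w ih =>
    intro q g hq hi
    have h : (valO f none)⁻¹ * g.val * valO f (some b) ∈ B := by
      simpa [valO] using hi 1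
    rw [padPair_nil_cons, DFA.evalFrom_cons]
    refine ih _ ⟨_, h⟩ (stdDFA_step_some M f B h1 x q g hq (none, some b) h) ?_
    intro i
    have := hi (i + 1)
    simpa [valO, mul_assoc] using this
  | case4 a v b w ih =>
    intro q g hq hi
    have h : (valO f (some a))⁻¹ * g.val * valO f (some b) ∈ B := by
      simpa [valO] using hi 1
    rw [padPair_cons_cons, DFA.evalFrom_cons]
    refine ih _ ⟨_, h⟩ (stdDFA_step_some M f B h1 x q g hq (some a, some b) h) ?_
    intro i
    have := hi (i + 1)
    simpa [valO, mul_assoc] using this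

end Regular

/-- If the pairs of words of a regular language `L` whose quotient in `Q` is `x` have all their
prefix differences in a finite set, then these pairs form a regular language. -/
theorem exists_regular_pairs {A Q : Type*} [Group Q] (f : A → Q) (L : Language A)
    (hL : L.IsRegular) (B : Set Q) (hB : B.Finite) (h1 : (1 : Q) ∈ B) (x : Q)
    (hLB : ∀ v ∈ L, ∀ w ∈ L, (v.map f).prod⁻¹ * (w.map f).prod = x →
      ∀ i, ((v.take i).map f).prod⁻¹ * ((w.take i).map f).prod ∈ B) :
    ∃ M : Language (Option A × Option A), M.IsRegular ∧ ∀ v w, padPair v w ∈ M ↔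
      (v ∈ L ∧ w ∈ L ∧ (v.map f).prod⁻¹ * (w.map f).prod = x) := by
  classical
  obtain ⟨σ, hσ, M, rfl⟩ := hL
  have : Fintype B := hB.fintype
  refine ⟨(stdDFA M f B h1 x).accepts, Language.isRegular_iff.2 ⟨_, inferInstance, _, rfl⟩, ?_⟩
  intro v w
  have e1 := stdDFA_fst M f B h1 x v w (M.start, M.start, some ⟨1, h1⟩)
  constructor
  · rintro ⟨a1, a2, g', a3, a4⟩
    refine ⟨?_, ?_, ?_⟩
    · rw [DFA.mem_accepts]
      rw [DFA.eval, ← e1.1]
      exact a1
    · rw [DFA.mem_accepts]
      rw [DFA.eval, ← e1.2]
      exact a2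
    · rw [← a4]
      have := stdDFA_some M f B h1 x v w (M.start, M.start, some ⟨1, h1⟩) ⟨1, h1⟩ g' rfl a3
      rw [this]
      simp
  · rintro ⟨a1, a2, a3⟩
    obtain ⟨g', hg'⟩ := stdDFA_exists M f B h1 x v w (M.start, M.start, some ⟨1, h1⟩) ⟨1, h1⟩
      rfl (by simpa using hLB v a1 w a2 a3)
    refine ⟨?_, ?_, g', hg', ?_⟩
    · show ((stdDFA M f B h1 x).evalFrom (M.start, M.start, some ⟨1, h1⟩) (padPair v w)).1 ∈ _
      rw [e1.1]
      exact a1
    · show ((stdDFA M f B h1 x).evalFrom (M.start, M.start, some ⟨1, h1⟩)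
        (padPair v w)).2.1 ∈ _
      rw [e1.2]
      exact a2
    · rw [← a3]
      have := stdDFA_some M f B h1 x v w (M.start, M.start, some ⟨1, h1⟩) ⟨1, h1⟩ g' rfl hg'
      rw [this]
      simp

/-! ### Languages defined by a relation between consecutive letters -/

section Chain

variable {C : Type*} (R : C → C → Prop)

open Classical in
/-- DFA recognizing the words in which consecutive letters are related. -/
noncomputable def chainDFA : DFA C (Option (Option C)) where
  step q c := match q with
    | none => none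
    | some none => some (some c)
    | some (some a) => if R a c then some (some c) else none
  start := some none
  accept := {q | q ≠ none}

theorem chainDFA_none (w : List C) : (chainDFA R).evalFrom none w = none := by
  induction w with
  | nil => rfl
  | cons c w ih =>
    rw [DFA.evalFrom_cons]
    exact ih

theorem chainDFA_some (w : List C) : ∀ a : C,
    (chainDFA R).evalFrom (some (some a)) w ≠ none ↔ (a :: w).IsChain R := by
  induction w with
  | nil =>
    intro a
    simp [DFA.evalFrom_nil]
  | cons c w ih =>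
    intro a
    rw [DFA.evalFrom_cons, List.isChain_cons_cons]
    by_cases h : R a c
    · have : (chainDFA R).step (some (some a)) c = some (some c) := if_pos h
      rw [this, ih c]
      simp [h]
    · have : (chainDFA R).step (some (some a)) c = none := if_neg h
      rw [this, chainDFA_none]
      simp [h]

theorem isRegular_chain [Finite C] : Language.IsRegular ({w | w.IsChain R} : Language C) := by
  classical
  have : Fintype C := Fintype.ofFinite C
  refine Language.isRegular_iff.2 ⟨Option (Option C), inferInstance, chainDFA R, ?_⟩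
  ext w
  show (chainDFA R).evalFrom (some none) w ≠ none ↔ w.IsChain R
  cases w with
  | nil => simp [DFA.evalFrom_nil]
  | cons c w =>
    rw [DFA.evalFrom_cons]
    exact chainDFA_some R w c

end Chain

/-! ### Normal forms in a power of a free group -/

section NormalForms

/-- The group `F₂ ^ k`. -/
abbrev Gk (k : ℕ) : Type := Fin k → FreeGroup (Fin 2)

/-- Codes of the letters of `F₂ ^ k`: a factor, a basis element and a sign. -/
abbrev Code (k : ℕ) : Type := Fin k × (Fin 2 × Bool)

variable {k : ℕ}

/-- The element of `F₂ ^ k` with a given code. -/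
def val (c : Code k) : Gk k := Pi.mulSingle c.1 (FreeGroup.mk [c.2])

/-- The inverse code. -/
def cinv (c : Code k) : Code k := (c.1, (c.2.1, !c.2.2))

/-- Value of a word of codes. -/
def cev (w : List (Code k)) : Gk k := (w.map val).prod

/-- Consecutive letters in a normal form. -/
def Rel (c c' : Code k) : Prop :=
  c.1 < c'.1 ∨ (c.1 = c'.1 ∧ (c.2.1 = c'.2.1 → c.2.2 = c'.2.2))

theorem cev_nil : cev ([] : List (Code k)) = 1 := rfl

theorem cev_cons (c : Code k) (w : List (Code k)) : cev (c :: w) = val c * cev w := by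
  simp [cev]

theorem cev_append (v w : List (Code k)) : cev (v ++ w) = cev v * cev w := by
  simp [cev]

theorem val_cinv (c : Code k) : val (cinv c) = (val c)⁻¹ := by
  simp [val, cinv, ← Pi.mulSingle_inv, FreeGroup.inv_mk, FreeGroup.invRev]

theorem cev_apply (w : List (Code k)) (i : Fin k) :
    cev w i = FreeGroup.mk ((w.filter (fun c => c.1 = i)).map Prod.snd) := by
  induction w with
  | nil => rfl
  | cons c w ih =>
    rw [cev_cons, Pi.mul_apply, ih]
    by_cases h : c.1 = i
    · subst h
      rw [List.filter_cons_of_pos (by simp), List.map_cons]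
      simp [val, FreeGroup.mul_mk]
    · rw [List.filter_cons_of_neg (by simpa using h)]
      have : (val c) i = 1 := by
        simp [val, Pi.mulSingle_eq_of_ne (Ne.symm h)]
      rw [this, one_mul]

theorem pairwise_of_chain {w : List (Code k)} (h : w.IsChain Rel) :
    w.Pairwise (fun c c' => c.1 ≤ c'.1) := by
  have h2 : w.IsChain (fun c c' : Code k => c.1 ≤ c'.1) := by
    refine h.imp ?_
    rintro a b (h | h)
    · exact le_of_lt h
    · exact le_of_eq h.1
  have : Trans (fun c c' : Code k => c.1 ≤ c'.1) (fun c c' : Code k => c.1 ≤ c'.1)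
      (fun c c' : Code k => c.1 ≤ c'.1) := ⟨fun h h' => le_trans h h'⟩
  exact List.isChain_iff_pairwise.1 h2

theorem filter_reduced {w : List (Code k)} (h : w.IsChain Rel) (i : Fin k) :
    FreeGroup.IsReduced ((w.filter (fun c => c.1 = i)).map Prod.snd) := by
  induction w with
  | nil => simp
  | cons c w ih =>
    have h1 := h.tail
    rw [List.tail_cons] at h1
    have ih' := ih h1
    by_cases hc : c.1 = i
    · rw [List.filter_cons_of_pos (by simpa using hc), List.map_cons]
      have hs := pairwise_of_chain h
      cases w with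
      | nil => simp
      | cons d w =>
        rw [List.isChain_cons_cons] at h
        rcases h.1 with h2 | h2
        · have : (d :: w).filter (fun c => c.1 = i) = [] := by
            rw [List.filter_eq_nil_iff]
            intro e he
            have hde : d.1 ≤ e.1 := by
              rcases List.mem_cons.1 he with rfl | he
              · exact le_rfl
              · exact (List.pairwise_cons.1 (List.pairwise_cons.1 hs).2).1 e he
            simp only [decide_eq_true_eq]
            intro hei
            have : c.1 < e.1 := lt_of_lt_of_le h2 hde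
            rw [hei, hc] at this
            exact lt_irrefl _ this
          rw [this]
          simp
        · have hd : d.1 = i := h2.1 ▸ hc
          rw [List.filter_cons_of_pos (by simpa using hd), List.map_cons] at ih' ⊢
          rw [FreeGroup.isReduced_cons_cons]
          exact ⟨h2.2, ih'⟩
    · rw [List.filter_cons_of_neg (by simpa using hc)]
      exact ih'

/-- A list sorted by the factor is determined by its parts in each factor. -/
theorem eq_of_filter_eq : ∀ (v w : List (Code k)),
    v.Pairwise (fun c c' => c.1 ≤ c'.1) → w.Pairwise (fun c c' => c.1 ≤ c'.1) →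
    (∀ i, v.filter (fun c => c.1 = i) = w.filter (fun c => c.1 = i)) → v = w := by
  intro v
  induction v with
  | nil =>
    intro w _ _ h
    cases w with
    | nil => rfl
    | cons d w =>
      have := h d.1
      simp at this
  | cons c v ih =>
    intro w hv hw h
    cases w with
    | nil =>
      have := h c.1
      simp at this
    | cons d w =>
      have h1 : c.1 ≤ d.1 := by
        have h2 : d ∈ (c :: v).filter (fun e => e.1 = d.1) := by
          rw [h d.1]
          simp
        have h3 := List.mem_of_mem_filter h2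
        rcases List.mem_cons.1 h3 with rfl | h3
        · exact le_rfl
        · exact (List.pairwise_cons.1 hv).1 d h3
      have h2 : d.1 ≤ c.1 := by
        have h2 : c ∈ (d :: w).filter (fun e => e.1 = c.1) := by
          rw [← h c.1]
          simp
        have h3 := List.mem_of_mem_filter h2
        rcases List.mem_cons.1 h3 with rfl | h3
        · exact le_rfl
        · exact (List.pairwise_cons.1 hw).1 c h3
      have h3 : c.1 = d.1 := le_antisymm h1 h2
      have h4 := h c.1
      rw [List.filter_cons_of_pos (by simp), List.filter_cons_of_pos (by simp [h3])] at h4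
      have h5 : c = d := (List.cons.inj h4).1
      subst h5
      congr 1
      refine ih w (List.pairwise_cons.1 hv).2 (List.pairwise_cons.1 hw).2 ?_
      intro i
      have h6 := h i
      by_cases hi : c.1 = i
      · rw [List.filter_cons_of_pos (by simpa using hi),
          List.filter_cons_of_pos (by simpa using hi)] at h6
        exact (List.cons.inj h6).2
      · rw [List.filter_cons_of_neg (by simpa using hi),
          List.filter_cons_of_neg (by simpa using hi)] at h6
        exact h6

/-- Uniqueness of normal forms. -/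
theorem nf_unique {v w : List (Code k)} (hv : v.IsChain Rel) (hw : w.IsChain Rel)
    (h : cev v = cev w) : v = w := by
  refine eq_of_filter_eq v w (pairwise_of_chain hv) (pairwise_of_chain hw) ?_
  intro i
  have h1 := congrFun h i
  rw [cev_apply, cev_apply] at h1
  have h2 := FreeGroup.reduce.sound h1
  rw [(filter_reduced hv i).reduce_eq, (filter_reduced hw i).reduce_eq] at h2
  have key : ∀ u : List (Code k), u.filter (fun c => c.1 = i) =
      ((u.filter (fun c => c.1 = i)).map Prod.snd).map (fun x => (i, x)) := by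
    intro u
    rw [List.map_map]
    conv_lhs => rw [← List.map_id (u.filter (fun c => c.1 = i))]
    apply List.map_congr_left
    intro c hc
    have := List.of_mem_filter hc
    simp only [decide_eq_true_eq] at this
    simp [← this]
  rw [key v, key w, h2]

theorem val_commute {c d : Code k} (h : c.1 ≠ d.1) : val c * val d = val d * val c :=
  Pi.mulSingle_commute h _ _

theorem val_commute_cev {c : Code k} {q : List (Code k)} (h : ∀ d ∈ q, c.1 < d.1) :
    cev q * val c = val c * cev q := by
  induction q with
  | nil => simp [cev_nil]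
  | cons d q ih =>
    rw [cev_cons, mul_assoc, ih (fun e he => h e (List.mem_cons_of_mem _ he)), ← mul_assoc,
      ← mul_assoc, val_commute (ne_of_lt (h d List.mem_cons_self))]

/-- Right multiplication of a normal form by a letter. -/
theorem nf_mul {v : List (Code k)} (hv : v.IsChain Rel) (l : Code k) :
    ∃ p q : List (Code k), (∀ d ∈ q, l.1 < d.1) ∧
      ((v = p ++ q ∧ (p ++ l :: q).IsChain Rel) ∨
       (v = p ++ cinv l :: q ∧ (p ++ q).IsChain Rel)) := by
  have hs := pairwise_of_chain hv
  set p := v.takeWhile (fun c => decide (c.1 ≤ l.1)) with hp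
  set q := v.dropWhile (fun c => decide (c.1 ≤ l.1)) with hq
  have hvpq : v = p ++ q := (List.takeWhile_append_dropWhile).symm
  have hpl : ∀ c ∈ p, c.1 ≤ l.1 := by
    intro c hc
    have := List.mem_takeWhile_imp hc
    simpa using this
  have hql : ∀ d ∈ q, l.1 < d.1 := by
    have hsq : q.Pairwise (fun c c' => c.1 ≤ c'.1) := by
      rw [hvpq] at hs
      exact (List.pairwise_append.1 hs).2.1
    cases hqq : q with
    | nil => intro d hd; simp at hd
    | cons e q' =>
      have he : l.1 < e.1 := by
        have h1 := List.head?_dropWhile_not (fun c : Code k => decide (c.1 ≤ l.1)) v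
        rw [← hq, hqq] at h1
        simpa using h1
      rw [hqq] at hsq
      intro d hd
      rcases List.mem_cons.1 hd with rfl | hd
      · exact he
      · exact lt_of_lt_of_le he ((List.pairwise_cons.1 hsq).1 d hd)
  have hpc : p.IsChain Rel := by
    rw [hvpq] at hv
    exact hv.left_of_append
  have hqc : q.IsChain Rel := by
    rw [hvpq] at hv
    exact hv.right_of_append
  by_cases hlast : p.getLast? = some (cinv l)
  · obtain ⟨p', hp'⟩ : ∃ p', p = p' ++ [cinv l] := by
      rw [List.getLast?_eq_some_iff] at hlast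
      exact hlast
    refine ⟨p', q, hql, Or.inr ⟨by rw [hvpq, hp']; simp, ?_⟩⟩
    refine List.IsChain.append ?_ hqc ?_
    · rw [hp'] at hpc
      exact hpc.left_of_append
    · intro x hx y hy
      left
      have hx' : x ∈ p := by
        rw [hp']
        exact List.mem_append_left _ (List.mem_of_mem_getLast? hx)
      exact lt_of_le_of_lt (hpl x hx') (hql y (List.mem_of_mem_head? hy))
  · refine ⟨p, q, hql, Or.inl ⟨hvpq, ?_⟩⟩
    refine List.IsChain.append hpc ?_ ?_
    · rw [List.isChain_cons]
      refine ⟨?_, hqc⟩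
      intro y hy
      exact Or.inl (hql y (List.mem_of_mem_head? hy))
    · intro x hx y hy
      rw [List.head?_cons, Option.mem_some_iff] at hy
      subst hy
      have hx' : x ∈ p := List.mem_of_mem_getLast? hx
      rcases lt_or_eq_of_le (hpl x hx') with h | h
      · exact Or.inl h
      · right
        refine ⟨h, ?_⟩
        intro h2
        by_contra h3
        apply hlast
        rw [Option.mem_def] at hx
        rw [hx]
        congr 1
        rcases x with ⟨x1, x2, x3⟩
        rcases l with ⟨l1, l2, l3⟩
        simp only at h h2 h3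
        subst h h2
        have h4 : x3 = !l3 := by
          revert h3
          cases x3 <;> cases l3 <;> decide
        rw [h4]
        rfl

theorem nf_mul_value {v : List (Code k)} {l : Code k} {p q : List (Code k)}
    (hq : ∀ d ∈ q, l.1 < d.1) :
    (v = p ++ q → cev (p ++ l :: q) = cev v * val l) ∧
    (v = p ++ cinv l :: q → cev (p ++ q) = cev v * val l) := by
  constructor
  · intro h
    rw [h, cev_append, cev_append, cev_cons, mul_assoc, val_commute_cev hq]
  · intro h
    rw [h, cev_append, cev_append, cev_cons, mul_assoc, mul_assoc,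
      val_commute_cev hq, val_cinv]
    simp

/-- The ball of radius two. -/
def ball2 (k : ℕ) : Set (Gk k) := {g | ∃ p : List (Code k), p.length ≤ 2 ∧ cev p = g}

theorem ball2_finite : (ball2 k).Finite := by
  have : {p : List (Code k) | p.length ≤ 2}.Finite := List.finite_length_le _ _
  refine (this.image cev).subset ?_
  rintro g ⟨p, hp, rfl⟩
  exact ⟨p, hp, rfl⟩

theorem one_mem_ball2 : (1 : Gk k) ∈ ball2 k := ⟨[], by simp, rfl⟩

/-- Fellow traveller property, shifted by one letter. -/
theorem shift_mem_ball2 {l : Code k} {p q : List (Code k)} (hq : ∀ d ∈ q, l.1 < d.1) (i : ℕ) :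
    (cev ((p ++ q).take i))⁻¹ * cev ((p ++ l :: q).take i) ∈ ball2 k := by
  rcases le_or_gt i p.length with h | h
  · rw [List.take_append_of_le_length h, List.take_append_of_le_length h]
    simpa using one_mem_ball2
  · obtain ⟨j, rfl⟩ : ∃ j, i = p.length + (j + 1) := ⟨i - p.length - 1, by omega⟩
    rw [List.take_length_add_append, List.take_length_add_append, List.take_succ_cons,
      cev_append, cev_append, cev_cons]
    have hq' : ∀ d ∈ q.take j, l.1 < d.1 := fun d hd => hq d (List.mem_of_mem_take hd)
    have h1 : cev (q.take (j + 1)) = cev (q.take j) * cev (q[j]?).toList := by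
      rw [← cev_append, List.take_add_one]
    have h2 : (cev p * cev (q.take (j + 1)))⁻¹ * (cev p * (val l * cev (q.take j))) =
        (cev (q[j]?).toList)⁻¹ * val l := by
      rw [← val_commute_cev hq', h1]
      group
    rw [h2]
    cases hj : q[j]? with
    | none =>
      refine ⟨[l], by simp, ?_⟩
      simp [cev]
    | some d =>
      refine ⟨[cinv d, l], by simp, ?_⟩
      simp [cev, val_cinv]

/-- Fellow traveller property for normal forms. -/
theorem nf_fellow {v w : List (Code k)} (hv : v.IsChain Rel) (hw : w.IsChain Rel)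
    (l : Code k) (h : cev v * val l = cev w) (i : ℕ) :
    (cev (v.take i))⁻¹ * cev (w.take i) ∈ ball2 k := by
  obtain ⟨p, q, hq, ⟨h1, h2⟩ | ⟨h1, h2⟩⟩ := nf_mul hv l
  · have h3 := (nf_mul_value (v := v) hq).1 h1
    have h4 : p ++ l :: q = w := nf_unique h2 hw (h3.trans h)
    rw [← h4, h1]
    exact shift_mem_ball2 hq i
  · have h3 := (nf_mul_value (v := v) hq).2 h1
    have h4 : p ++ q = w := nf_unique h2 hw (h3.trans h)
    rw [← h4, h1]
    obtain ⟨r, hr, hr'⟩ := shift_mem_ball2 (l := cinv l) (p := p) (q := q) hq i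
    refine ⟨(r.map cinv).reverse, by simpa using hr, ?_⟩
    have h5 : cev (r.map cinv).reverse = (cev r)⁻¹ := by
      clear hr hr'
      induction r with
      | nil => simp [cev]
      | cons a r ih =>
        rw [List.map_cons, List.reverse_cons, cev_append, ih, cev_cons, cev_cons, cev_nil,
          val_cinv]
        simp
    rw [h5, hr']
    group

end NormalForms

/-! ### The example -/

section Example

/-- The homomorphism `F₂ → ℤ` sending both basis elements to `1`. -/
def expSum : FreeGroup (Fin 2) →* Multiplicative ℤ :=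
  FreeGroup.lift (fun _ => Multiplicative.ofAdd 1)

/-- The homomorphism `F₂ ^ k → ℤ` sending each basis element of each factor to `1`. -/
def totalExp (k : ℕ) : (Fin k → FreeGroup (Fin 2)) →* Multiplicative ℤ where
  toFun g := ∏ i, expSum (g i)
  map_one' := by simp
  map_mul' g h := by simp [Finset.prod_mul_distrib]

variable (k : ℕ)

/-- The standard generating set of `F₂ ^ k`. -/
def Xk : Finset (Gk k) :=
  Finset.univ.image (fun ix : Fin k × Fin 2 => Pi.mulSingle ix.1 (FreeGroup.of ix.2))

theorem mem_Xk (i : Fin k) (x : Fin 2) : (Pi.mulSingle i (FreeGroup.of x) : Gk k) ∈ Xk k :=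
  Finset.mem_image.2 ⟨(i, x), Finset.mem_univ _, rfl⟩

theorem closure_Xk : Subgroup.closure (Xk k : Set (Gk k)) = ⊤ := by
  rw [eq_top_iff]
  intro g _
  apply Subgroup.pi_mem_of_mulSingle_mem
  intro i
  induction g i using FreeGroup.induction_on with
  | C1 =>
    rw [Pi.mulSingle_one]
    exact Subgroup.one_mem _
  | of x => exact Subgroup.subset_closure (mem_Xk k i x)
  | inv_of x h =>
    rw [Pi.mulSingle_inv]
    exact Subgroup.inv_mem _ h
  | mul x y hx hy =>
    rw [Pi.mulSingle_mul]
    exact Subgroup.mul_mem _ hx hy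

variable {k}

theorem val_true (i : Fin k) (x : Fin 2) :
    val (i, (x, true)) = Pi.mulSingle i (FreeGroup.of x) := rfl

theorem val_mem (c : Code k) : val c ∈ Xk k ∨ (val c)⁻¹ ∈ Xk k := by
  rcases c with ⟨i, x, s⟩
  cases s
  · right
    rw [← val_cinv]
    exact mem_Xk k i x
  · left
    exact mem_Xk k i x

/-- The letter of `X ∪ X⁻¹` with a given code. -/
def letter (c : Code k) : Alphabet (Xk k) := ⟨val c, val_mem c⟩

theorem letter_bijective : Function.Bijective (letter : Code k → Alphabet (Xk k)) := by
  constructor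
  · intro c d h
    have h1 : val c = val d := congrArg Subtype.val h
    have h2 : cev [c] = cev [d] := by simp [cev, h1]
    have := nf_unique (List.isChain_singleton c) (List.isChain_singleton d) h2
    exact (List.cons.inj this).1
  · rintro ⟨a, ha | ha⟩
    · obtain ⟨⟨i, x⟩, _, h⟩ := Finset.mem_image.1 ha
      exact ⟨(i, (x, true)), Subtype.ext h⟩
    · obtain ⟨⟨i, x⟩, _, h⟩ := Finset.mem_image.1 ha
      refine ⟨cinv (i, (x, true)), Subtype.ext ?_⟩
      show val (cinv (i, (x, true))) = a
      rw [val_cinv, val_true]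
      simp only at h
      rw [h, inv_inv]

/-- The equivalence between codes and letters. -/
noncomputable def eqv (k : ℕ) : Code k ≃ Alphabet (Xk k) := Equiv.ofBijective _ letter_bijective

theorem val_symm (a : Alphabet (Xk k)) : val ((eqv k).symm a) = a.val := by
  have : letter ((eqv k).symm a) = a := (eqv k).apply_symm_apply a
  exact congrArg Subtype.val this

theorem ev_eq_cev (w : List (Alphabet (Xk k))) : ev w = cev (w.map (eqv k).symm) := by
  induction w with
  | nil => rfl
  | cons a w ih => rw [ev_cons, List.map_cons, cev_cons, val_symm, ih]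

theorem exists_nf (u : List (Code k)) : ∃ w : List (Code k), w.IsChain Rel ∧ cev w = cev u := by
  induction u using List.reverseRecOn with
  | nil => exact ⟨[], List.isChain_nil, rfl⟩
  | append_singleton u l ih =>
    obtain ⟨v, hv, hv'⟩ := ih
    rw [cev_append, ← hv']
    have hl : cev [l] = val l := by simp [cev]
    rw [hl]
    obtain ⟨p, q, hq, ⟨h1, h2⟩ | ⟨h1, h2⟩⟩ := nf_mul hv l
    · exact ⟨_, h2, (nf_mul_value (v := v) hq).1 h1⟩
    · exact ⟨_, h2, (nf_mul_value (v := v) hq).2 h1⟩

instance : Finite (Alphabet (Xk k)) := Finite.of_equiv _ (eqv k)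

/-- `F₂ ^ k` is automatic. -/
theorem automatic_Gk (k : ℕ) : IsCosetAutomatic (⊥ : Subgroup (Fin k → FreeGroup (Fin 2))) := by
  refine ⟨Xk k, closure_Xk k, ?_⟩
  set L : Language (Alphabet (Xk k)) :=
    {w | w.IsChain (fun a b => Rel ((eqv k).symm a) ((eqv k).symm b))} with hLdef
  have hL : L.IsRegular := isRegular_chain _
  have hmem : ∀ w, w ∈ L ↔ (w.map (eqv k).symm).IsChain Rel := by
    intro w
    rw [List.isChain_map]
    exact Iff.rfl
  have hM := fun a : Option (Alphabet (Xk k)) =>
    exists_regular_pairs (fun b : Alphabet (Xk k) => b.val) L hL (ball2 k) ball2_finite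
      one_mem_ball2 (evLetter a) (by
        intro v hv w hw hvw i
        have e1 : ∀ u : List (Alphabet (Xk k)), (u.map (fun b => b.val)).prod =
            cev (u.map (eqv k).symm) := fun u => ev_eq_cev u
        rw [e1, e1] at hvw ⊢
        rw [List.map_take, List.map_take]
        rw [hmem] at hv hw
        cases a with
        | none =>
          have h1 : cev (v.map (eqv k).symm) = cev (w.map (eqv k).symm) :=
            inv_mul_eq_one.1 hvw
          rw [nf_unique hv hw h1]
          simpa using one_mem_ball2
        | some a =>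
          refine nf_fellow hv hw ((eqv k).symm a) ?_ i
          rw [val_symm]
          rw [inv_mul_eq_iff_eq_mul] at hvw
          exact hvw.symm)
  choose M hM1 hM2 using hM
  refine ⟨L, M, hL, hM1, ?_, ?_⟩
  · intro g
    obtain ⟨w, hw⟩ := exists_word (closure_Xk k) g
    obtain ⟨u, hu, hu'⟩ := exists_nf (w.map (eqv k).symm)
    refine ⟨u.map (eqv k), ?_, ?_⟩
    · rw [hmem, List.map_map]
      simpa using hu
    · rw [rcoset_eq_iff, ev_eq_cev, List.map_map]
      rw [← hw, ev_eq_cev w, ← hu']
      simp
  · intro a v w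
    rw [hM2, rcoset_eq_iff, Subgroup.mem_bot]
    refine and_congr Iff.rfl (and_congr Iff.rfl ?_)
    show (ev v)⁻¹ * ev w = evLetter a ↔ ev v * evLetter a * (ev w)⁻¹ = 1
    rw [inv_mul_eq_iff_eq_mul, mul_inv_eq_one, eq_comm]

theorem expSum_of (x : Fin 2) : expSum (FreeGroup.of x) = Multiplicative.ofAdd 1 := by
  simp [expSum]

theorem totalExp_mulSingle (i : Fin k) (u : FreeGroup (Fin 2)) :
    totalExp k (Pi.mulSingle i u) = expSum u := by
  show ∏ j, expSum ((Pi.mulSingle i u : Gk k) j) = expSum u
  rw [Finset.prod_eq_single i]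
  · simp
  · intro j _ hj
    rw [Pi.mulSingle_eq_of_ne hj, map_one]
  · intro h
    exact absurd (Finset.mem_univ i) h

/-- The letters have exponent sum `1` or `-1`. -/
theorem totalExp_letter (a : Alphabet (Xk k)) :
    totalExp k a.val = Multiplicative.ofAdd 1 ∨ totalExp k a.val = Multiplicative.ofAdd (-1) := by
  rcases a with ⟨a, ha | ha⟩
  · obtain ⟨⟨i, x⟩, _, rfl⟩ := Finset.mem_image.1 ha
    left
    show totalExp k (Pi.mulSingle i (FreeGroup.of x)) = _
    rw [totalExp_mulSingle, expSum_of]
  · obtain ⟨⟨i, x⟩, _, h⟩ := Finset.mem_image.1 ha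
    right
    have h2 : a = (Pi.mulSingle i (FreeGroup.of x))⁻¹ := by
      simp only at h
      rw [h, inv_inv]
    show totalExp k a = _
    rw [h2, map_inv, totalExp_mulSingle, expSum_of]
    rfl

/-- Exponent sums of the prefixes of constant words. -/
theorem const_word (w : List (Alphabet (Xk k))) (hw : w.IsChain (fun a b => a = b)) :
    ∃ s : ℤ, (s = 1 ∨ s = -1) ∧ ∀ i, ((w.take i).map (fun b => totalExp k b.val)).prod =
      Multiplicative.ofAdd (s * (min i w.length : ℕ)) := by
  cases w with
  | nil => exact ⟨1, Or.inl rfl, fun i => by simp⟩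
  | cons a w =>
    have h1 : a :: w = List.replicate (a :: w).length a :=
      List.isChain_eq_iff_eq_replicate.1 hw a (by simp)
    obtain ⟨s, hs, hs'⟩ : ∃ s : ℤ, (s = 1 ∨ s = -1) ∧
        totalExp k a.val = Multiplicative.ofAdd s := by
      rcases totalExp_letter a with h | h
      · exact ⟨1, Or.inl rfl, h⟩
      · exact ⟨-1, Or.inr rfl, h⟩
    refine ⟨s, hs, ?_⟩
    intro i
    rw [h1, List.take_replicate, List.map_replicate, List.prod_replicate, hs',
      List.length_replicate, ← ofAdd_nsmul, nsmul_eq_mul, mul_comm]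

/-- `(F₂ ^ k, ker)` is coset automatic. -/
theorem cosetAutomatic_ker (hk : 1 ≤ k) : IsCosetAutomatic (totalExp k).ker := by
  refine ⟨Xk k, closure_Xk k, ?_⟩
  set L : Language (Alphabet (Xk k)) := {w | w.IsChain (fun a b => a = b)} with hLdef
  have hL : L.IsRegular := isRegular_chain _
  set B : Set (Multiplicative ℤ) := Multiplicative.toAdd ⁻¹' (Set.Icc (-1) 1) with hB
  have hBf : B.Finite := (Set.finite_Icc (-1 : ℤ) 1).preimage
    Multiplicative.toAdd.injective.injOn
  have h1B : (1 : Multiplicative ℤ) ∈ B := by
    show Multiplicative.toAdd (1 : Multiplicative ℤ) ∈ Set.Icc (-1 : ℤ) 1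
    simp
  have hM := fun a : Option (Alphabet (Xk k)) =>
    exists_regular_pairs (fun b : Alphabet (Xk k) => totalExp k b.val) L hL B hBf h1B
      (totalExp k (evLetter a)) (by
        intro v hv w hw hvw i
        obtain ⟨s, hs, hs'⟩ := const_word v hv
        obtain ⟨t, ht, ht'⟩ := const_word w hw
        have e1 := hs' v.length
        have e2 := ht' w.length
        rw [List.take_length, min_self] at e1 e2
        rw [e1, e2] at hvw
        rw [hs', ht']
        show Multiplicative.toAdd ((Multiplicative.ofAdd (s * (min i v.length : ℕ)))⁻¹ *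
          Multiplicative.ofAdd (t * (min i w.length : ℕ))) ∈ Set.Icc (-1 : ℤ) 1
        have h3 : totalExp k (evLetter a) = Multiplicative.ofAdd 0 ∨
            totalExp k (evLetter a) = Multiplicative.ofAdd 1 ∨
            totalExp k (evLetter a) = Multiplicative.ofAdd (-1) := by
          cases a with
          | none => left; exact map_one _
          | some a => right; exact totalExp_letter a
        have h4 : -(s * (v.length : ℤ)) + t * (w.length : ℤ) = 0 ∨
            -(s * (v.length : ℤ)) + t * (w.length : ℤ) = 1 ∨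
            -(s * (v.length : ℤ)) + t * (w.length : ℤ) = -1 := by
          rcases h3 with h3 | h3 | h3 <;> rw [h3] at hvw
          · exact Or.inl hvw
          · exact Or.inr (Or.inl hvw)
          · exact Or.inr (Or.inr hvw)
        show -(s * ((min i v.length : ℕ) : ℤ)) + t * ((min i w.length : ℕ) : ℤ) ∈
          Set.Icc (-1 : ℤ) 1
        rw [Set.mem_Icc]
        rcases hs with rfl | rfl <;> rcases ht with rfl | rfl <;> omega)
  choose M hM1 hM2 using hM
  have hphi : ∀ u : List (Alphabet (Xk k)),
      (u.map (fun b => totalExp k b.val)).prod = totalExp k (ev u) := by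
    intro u
    rw [ev, map_list_prod, List.map_map]
    rfl
  refine ⟨L, M, hL, hM1, ?_, ?_⟩
  · intro g
    set i0 : Fin k := ⟨0, hk⟩
    have key : ∃ (c : Alphabet (Xk k)) (n : ℕ), (totalExp k c.val) ^ n = totalExp k g := by
      set m : ℤ := Multiplicative.toAdd (totalExp k g) with hm
      rcases le_total 0 m with h | h
      · refine ⟨letter (i0, (0, true)), m.toNat, ?_⟩
        have : totalExp k (letter (i0, ((0 : Fin 2), true))).val = Multiplicative.ofAdd 1 := by
          show totalExp k (Pi.mulSingle i0 (FreeGroup.of 0)) = _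
          rw [totalExp_mulSingle, expSum_of]
        rw [this, ← ofAdd_nsmul]
        apply Multiplicative.toAdd.injective
        rw [toAdd_ofAdd, nsmul_eq_mul, mul_one, Int.toNat_of_nonneg h]
      · refine ⟨letter (cinv (i0, (0, true))), (-m).toNat, ?_⟩
        have : totalExp k (letter (cinv (i0, ((0 : Fin 2), true)))).val =
            Multiplicative.ofAdd (-1) := by
          show totalExp k (val (cinv (i0, ((0 : Fin 2), true)))) = _
          rw [val_cinv, val_true, map_inv, totalExp_mulSingle, expSum_of]
          rfl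
        rw [this, ← ofAdd_nsmul]
        apply Multiplicative.toAdd.injective
        rw [toAdd_ofAdd, nsmul_eq_mul, Int.toNat_of_nonneg (by omega), ← hm]
        ring
    obtain ⟨c, n, hcn⟩ := key
    refine ⟨List.replicate n c, List.isChain_replicate_of_rel n rfl, ?_⟩
    rw [rcoset_eq_iff, MonoidHom.mem_ker, map_mul, map_inv, ← hphi, List.map_replicate,
      List.prod_replicate, hcn]
    simp
  · intro a v w
    rw [hM2, rcoset_eq_iff, MonoidHom.mem_ker]
    refine and_congr Iff.rfl (and_congr Iff.rfl ?_)
    rw [hphi, hphi, map_mul, map_mul, map_inv, inv_mul_eq_iff_eq_mul, mul_inv_eq_one, eq_comm]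

theorem Xk_commute_or {x : Gk k} (hx : x ∈ Xk k) (i j : Fin k) (hij : i ≠ j) :
    (∀ u, Commute (Pi.mulSingle i u : Gk k) x) ∨ (∀ u, Commute (Pi.mulSingle j u : Gk k) x) := by
  obtain ⟨⟨l, y⟩, _, rfl⟩ := Finset.mem_image.1 hx
  by_cases h : i = l
  · right
    intro u
    exact Pi.mulSingle_commute (by rw [← h]; exact hij.symm) _ _
  · left
    intro u
    exact Pi.mulSingle_commute h _ _

/-- The kernel of `F₂ ^ k → ℤ` is finitely generated for `k ≥ 2`. -/
theorem ker_fg (hk : 2 ≤ k) : (totalExp k).ker.FG := by
  classical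
  set T : Finset (Gk k) := (Xk k ×ˢ Xk k).image (fun xy => xy.1 * xy.2⁻¹) with hT
  refine ⟨T, ?_⟩
  set S := Subgroup.closure (T : Set (Gk k)) with hS
  have hX1 : ∀ x ∈ Xk k, totalExp k x = Multiplicative.ofAdd 1 := by
    intro x hx
    obtain ⟨⟨i, y⟩, _, rfl⟩ := Finset.mem_image.1 hx
    show totalExp k (Pi.mulSingle i (FreeGroup.of y)) = _
    rw [totalExp_mulSingle, expSum_of]
  have hTS : ∀ x ∈ Xk k, ∀ y ∈ Xk k, x * y⁻¹ ∈ S := by
    intro x hx y hy
    apply Subgroup.subset_closure
    exact Finset.mem_image.2 ⟨(x, y), Finset.mem_product.2 ⟨hx, hy⟩, rfl⟩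
  have hSle : S ≤ (totalExp k).ker := by
    rw [hS, Subgroup.closure_le]
    intro z hz
    obtain ⟨⟨x, y⟩, hxy, rfl⟩ := Finset.mem_image.1 hz
    obtain ⟨hx, hy⟩ := Finset.mem_product.1 hxy
    show totalExp k (x * y⁻¹) = 1
    rw [map_mul, map_inv, hX1 x hx, hX1 y hy, mul_inv_cancel]
  set i0 : Fin k := ⟨0, by omega⟩ with hi0
  set i1 : Fin k := ⟨1, by omega⟩ with hi1
  have h01 : i0 ≠ i1 := by
    intro h
    have := congrArg Fin.val h
    simp [hi0, hi1] at this
  set A0 : Gk k := Pi.mulSingle i0 (FreeGroup.of 0) with hA0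
  set A1 : Gk k := Pi.mulSingle i1 (FreeGroup.of 0) with hA1
  have hA0X : A0 ∈ Xk k := mem_Xk k i0 0
  have hA1X : A1 ∈ Xk k := mem_Xk k i1 0
  have hc01 : Commute A0 A1 := Pi.mulSingle_commute h01 _ _
  have key : ∀ (m : ℤ), ∀ x ∈ Xk k, A0 ^ m * x * A0 ^ (-m - 1) ∈ S := by
    intro m x hx
    rcases Xk_commute_or hx i0 i1 h01 with h | h
    · have hc : Commute A0 x := h _
      have h2 : A0 ^ m * x * A0 ^ (-m - 1) = x * A0⁻¹ := by
        rw [(hc.zpow_left m).eq, mul_assoc, ← zpow_add]
        congr 1
        rw [← zpow_neg_one]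
        congr 1
        ring
      rw [h2]
      exact hTS x hx A0 hA0X
    · have hc : Commute A1 x := h _
      have hD : ∀ n : ℤ, (A0 * A1⁻¹) ^ n = A0 ^ n * A1 ^ (-n) := by
        intro n
        rw [(hc01.inv_right).mul_zpow, inv_zpow, zpow_neg]
      have h2 : A0 ^ m * x * A0 ^ (-m - 1) =
          (A0 * A1⁻¹) ^ m * (x * A1⁻¹) * (A0 * A1⁻¹) ^ (-m - 1) := by
        rw [hD, hD]
        have e1 : A0 ^ m * A1 ^ (-m) * (x * A1⁻¹) = A0 ^ m * x * A1 ^ (-m - 1) := by
          rw [mul_assoc (A0 ^ m), ← mul_assoc (A1 ^ (-m)), (hc.zpow_left (-m)).eq,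
            mul_assoc x, ← zpow_neg_one, ← zpow_add, mul_assoc (A0 ^ m)]
          rfl
        have e2 : A1 ^ (-m - 1) * A0 ^ (-m - 1) = A0 ^ (-m - 1) * A1 ^ (-m - 1) :=
          ((hc01.zpow_left (-m - 1)).zpow_right (-m - 1)).symm.eq
        rw [e1, mul_assoc (A0 ^ m * x), ← mul_assoc (A1 ^ (-m - 1)), e2,
          mul_assoc (A0 ^ (-m - 1)), ← zpow_add, add_neg_cancel, zpow_zero, mul_one]
      rw [h2]
      exact S.mul_mem (S.mul_mem (S.zpow_mem (hTS A0 hA0X A1 hA1X) m) (hTS x hx A1 hA1X))
        (S.zpow_mem (hTS A0 hA0X A1 hA1X) (-m - 1))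
  have main : ∀ g : Gk k, ∃ n : ℤ, g * A0 ^ n ∈ S := by
    intro g
    have hg : g ∈ Subgroup.closure (Xk k : Set (Gk k)) := by rw [closure_Xk]; trivial
    induction hg using Subgroup.closure_induction_right with
    | one => exact ⟨0, by simp⟩
    | mul_right g _ x hx ih =>
      obtain ⟨n, hn⟩ := ih
      refine ⟨n - 1, ?_⟩
      have h1 := key (-n) x hx
      have h2 : g * x * A0 ^ (n - 1) = (g * A0 ^ n) * (A0 ^ (-n) * x * A0 ^ (-(-n) - 1)) := by
        rw [neg_neg]
        simp only [mul_assoc, zpow_neg, mul_inv_cancel_left]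
      rw [h2]
      exact S.mul_mem hn h1
    | mul_inv_cancel g _ x hx ih =>
      obtain ⟨n, hn⟩ := ih
      refine ⟨n + 1, ?_⟩
      have h1 := key (-n - 1) x hx
      have h2 : g * x⁻¹ * A0 ^ (n + 1) =
          (g * A0 ^ n) * (A0 ^ (-n - 1) * x * A0 ^ (-(-n - 1) - 1))⁻¹ := by
        have e1 : -(-n - 1) - 1 = n := by ring
        have e2 : -n - 1 = -(n + 1) := by ring
        rw [e1, e2]
        simp only [mul_assoc, zpow_neg, mul_inv_rev, inv_inv, mul_inv_cancel_left]
      rw [h2]
      exact S.mul_mem hn (S.inv_mem h1)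
  apply le_antisymm hSle
  intro g hg
  obtain ⟨n, hn⟩ := main g
  have h1 : totalExp k (g * A0 ^ n) = 1 := hSle hn
  rw [map_mul, (MonoidHom.mem_ker).1 hg, one_mul, map_zpow, hX1 A0 hA0X, ← ofAdd_zsmul] at h1
  have h2 : n = 0 := by
    have := congrArg Multiplicative.toAdd h1
    simpa using this
  rw [h2] at hn
  simpa using hn

/-- An affine action of `F₂` on the rationals. -/
noncomputable def aff : FreeGroup (Fin 2) →* Equiv.Perm ℚ :=
  FreeGroup.lift (fun i =>
    { toFun := fun x => 2 * x + (i.val : ℚ)
      invFun := fun x => (x - (i.val : ℚ)) / 2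
      left_inv := fun x => by ring
      right_inv := fun x => by ring })

theorem aff_of (i : Fin 2) (x : ℚ) : aff (FreeGroup.of i) x = 2 * x + (i.val : ℚ) := by
  simp [aff]

theorem aff_form (u : FreeGroup (Fin 2)) :
    ∃ c : ℚ, ∀ x, aff u x = 2 ^ (Multiplicative.toAdd (expSum u)) * x + c := by
  induction u using FreeGroup.induction_on with
  | C1 => exact ⟨0, fun x => by simp⟩
  | of i =>
    refine ⟨(i.val : ℚ), fun x => ?_⟩
    rw [aff_of, expSum_of, toAdd_ofAdd, zpow_one]
  | inv_of i _ =>
    refine ⟨-(i.val : ℚ) / 2, fun x => ?_⟩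
    rw [map_inv, map_inv, expSum_of, ← ofAdd_neg, toAdd_ofAdd]
    rw [Equiv.Perm.inv_eq_iff_eq, aff_of, zpow_neg_one]
    ring
  | mul u v hu hv =>
    obtain ⟨c, hc⟩ := hu
    obtain ⟨d, hd⟩ := hv
    refine ⟨2 ^ (Multiplicative.toAdd (expSum u)) * d + c, fun x => ?_⟩
    rw [map_mul, Equiv.Perm.mul_apply, hd, hc, map_mul, toAdd_mul,
      zpow_add₀ (by norm_num : (2 : ℚ) ≠ 0)]
    ring

/-- The element `a b⁻¹` of `F₂`. -/
def h0 : FreeGroup (Fin 2) := FreeGroup.of 0 * (FreeGroup.of 1)⁻¹

theorem aff_h0 (x : ℚ) : aff h0 x = x - 1 := by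
  have h : (aff (FreeGroup.of 1))⁻¹ x = (x - 1) / 2 := by
    rw [Equiv.Perm.inv_eq_iff_eq, aff_of]
    simp
    ring
  rw [h0, map_mul, map_inv, Equiv.Perm.mul_apply, h, aff_of]
  simp
  ring

theorem aff_conj (u : FreeGroup (Fin 2)) (x : ℚ) :
    aff (u * h0 * u⁻¹) x = x - 2 ^ (Multiplicative.toAdd (expSum u)) := by
  obtain ⟨c, hc⟩ := aff_form u
  have h1 : ∀ y, aff u (aff u⁻¹ y) = y := by
    intro y
    rw [map_inv]
    simp
  rw [map_mul, map_mul, Equiv.Perm.mul_apply, Equiv.Perm.mul_apply, aff_h0, hc]
  have h2 := h1 x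
  rw [hc] at h2
  linear_combination h2

theorem expSum_eq_of_conj {u v : FreeGroup (Fin 2)} (h : u * h0 * u⁻¹ = v * h0 * v⁻¹) :
    expSum u = expSum v := by
  have h1 := aff_conj u 0
  have h2 := aff_conj v 0
  rw [h, h2] at h1
  have h3 : (2 : ℚ) ^ (Multiplicative.toAdd (expSum u)) =
      2 ^ (Multiplicative.toAdd (expSum v)) := by linarith
  have h4 := zpow_right_injective₀ (by norm_num : (0 : ℚ) < 2) (by norm_num) h3
  exact Multiplicative.toAdd.injective h4

theorem expSum_h0 : expSum h0 = 1 := by
  rw [h0, map_mul, map_inv, expSum_of, expSum_of, mul_inv_cancel]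

/-- `(F₂ ^ k, ker)` is not strongly coset automatic. -/
theorem not_strong (hk : 1 ≤ k) : ¬ IsStronglyCosetAutomatic (totalExp k).ker := by
  intro hs
  obtain ⟨r, hr, hfin⟩ := strong_obstruction _ hs
  have h1 : ∀ i : Fin k, (Set.range (fun g : Gk k => expSum (r g i))).Finite := by
    intro i
    set y : Gk k := Pi.mulSingle i h0 with hy
    have hG : (Set.range (fun g : Gk k => r g * y * (r g)⁻¹)).Finite := by
      refine (hfin y).subset ?_
      rintro _ ⟨g, rfl⟩
      refine ⟨?_, g, rfl⟩
      rw [MonoidHom.mem_ker, map_mul, map_mul, map_inv, hy, totalExp_mulSingle, expSum_h0]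
      simp
    have hfac : Function.FactorsThrough (fun g : Gk k => expSum (r g i))
        (fun g : Gk k => r g * y * (r g)⁻¹) := by
      intro g g' h
      apply expSum_eq_of_conj
      have := congrFun h i
      simpa [hy] using this
    refine (hG.image (Function.extend (fun g : Gk k => r g * y * (r g)⁻¹)
      (fun g : Gk k => expSum (r g i)) (fun _ => 1))).subset ?_
    rintro _ ⟨g, rfl⟩
    exact ⟨_, ⟨g, rfl⟩, hfac.extend_apply _ g⟩
  have h2 : (Set.range (fun g : Gk k => totalExp k g)).Finite := by
    have h3 : (Set.pi Set.univ (fun i : Fin k =>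
        Set.range (fun g : Gk k => expSum (r g i)))).Finite := Set.Finite.pi' h1 |>.subset (by
          intro f hf i
          exact hf i (Set.mem_univ _))
    refine (h3.image (fun f => ∏ i, f i)).subset ?_
    rintro _ ⟨g, rfl⟩
    refine ⟨fun i => expSum (r g i), fun i _ => ⟨g, rfl⟩, ?_⟩
    have h4 := hr g
    rw [MonoidHom.mem_ker, map_mul, map_inv, mul_inv_eq_one] at h4
    exact h4
  have h3 : Set.range (fun g : Gk k => totalExp k g) = Set.univ := by
    rw [Set.eq_univ_iff_forall]
    intro x
    refine ⟨(Pi.mulSingle (⟨0, hk⟩ : Fin k) (FreeGroup.of 0)) ^ (Multiplicative.toAdd x), ?_⟩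
    show totalExp k _ = x
    rw [map_zpow, totalExp_mulSingle, expSum_of, ← ofAdd_zsmul]
    simp
  rw [h3] at h2
  exact Set.infinite_univ h2

/-- Let `k ≥ 2`, let `G = F₂ ^ k` and let `H` be the kernel of the homomorphism `G → ℤ` sending
every basis element of every factor to `1`. Then `G` is automatic (the pair `(G, 1)` is coset
automatic), `H` is a finitely generated normal subgroup, the pair `(G, H)` is coset automatic,
but `(G, H)` is not strongly coset automatic. -/
theorem result (k : ℕ) (hk : 2 ≤ k) :
    IsCosetAutomatic (⊥ : Subgroup (Fin k → FreeGroup (Fin 2))) ∧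
    (totalExp k).ker.FG ∧ (totalExp k).ker.Normal ∧
    IsCosetAutomatic (totalExp k).ker ∧
    ¬ IsStronglyCosetAutomatic (totalExp k).ker :=
  ⟨automatic_Gk k, ker_fg hk, inferInstance, cosetAutomatic_ker (by omega),
    not_strong (by omega)⟩

end Example

end Pool.Agent.Results.MP_6b1724_al.CosetAutomaticNotStrong
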